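import Mathlib

namespace Pool.Agent.H.MP_0256c3
open Set Filter Topology Function

universe u

lemma comb {S : Type u} {A : Type} [Uncountable A] (m : A ⊕ A ⊕ Set (A × A) → ℕ)
    (W : A ⊕ A ⊕ Set (A × A) → ℕ → Set S)
    (h : ∀ a b c, (a, b) ∈ c ↔ ∃ i < m (.inl a), ∃ j < m (.inr (.inl b)), ∃ l < m (.inr (.inr c)),
      (W (.inl a) i ∩ W (.inr (.inl b)) j).Nonempty ∧ (W (.inl a) i ∩ W (.inr (.inr c)) l).Nonempty ∧
        (W (.inr (.inl b)) j ∩ W (.inr (.inr c)) l).Nonempty)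
    (hW : ∀ γ i, m γ ≤ i → W γ i = ∅) : False := by
  classical
  obtain ⟨m0, hm0⟩ : ∃ m0, {a | m (.inl a) ≤ m0 ∧ m (.inr (.inl a)) ≤ m0}.Infinite := by
    by_contra! c
    apply Set.not_countable_univ (α := A)
    refine (countable_iUnion fun n => (c n).countable).mono fun a _ => ?_
    exact mem_iUnion.2 ⟨max (m (.inl a)) (m (.inr (.inl a))), le_max_left _ _, le_max_right _ _⟩
  let g0 := hm0.natEmbedding
  let g : ℕ → ℕ → A := fun k i => (g0 (Nat.pair k i)).1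
  have hg : ∀ k i k' i', g k i = g k' i' → k = k' ∧ i = i' := fun k i k' i' e =>
    Nat.pair_eq_pair.1 (g0.injective (Subtype.ext e))
  have hgm : ∀ k i, m (.inl (g k i)) ≤ m0 ∧ m (.inr (.inl (g k i))) ≤ m0 := fun k i => (g0 _).2
  let N : ℕ → ℕ := fun k => 2 * m0 * k + 1
  let Φ : ∀ k, (Fin k → Set (Fin (N k) × Fin m0) × Set (Fin (N k) × Fin m0)) →
      Set (Fin (N k) × Fin (N k)) := fun k d =>
    {p | ∃ (i j : Fin m0) (l : Fin k), (W (.inl (g k p.1)) i ∩ W (.inr (.inl (g k p.2))) j).Nonempty ∧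
      (p.1, i) ∈ (d l).1 ∧ (p.2, j) ∈ (d l).2}
  have hΦ : ∀ k, ∃ p, p ∉ range (Φ k) := fun k => by
    by_contra! c
    have := Fintype.card_le_of_surjective (Φ k) c
    simp only [Fintype.card_set, Fintype.card_prod, Fintype.card_fin, Fintype.card_pi,
      Finset.prod_const, Finset.card_univ, ← pow_add, ← pow_mul] at this
    have h2 := (Nat.pow_le_pow_iff_right (by norm_num)).1 this
    simp only [N] at h2
    nlinarith
  choose p hp using hΦ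
  let c : Set (A × A) := {x | ∃ k i j, (i, j) ∈ p k ∧ x = (g k i, g k j)}
  let k := m (.inr (.inr c))
  refine hp k ⟨fun l => ({x | (W (.inl (g k x.1)) x.2 ∩ W (.inr (.inr c)) l).Nonempty},
    {x | (W (.inr (.inl (g k x.1))) x.2 ∩ W (.inr (.inr c)) l).Nonempty}), ?_⟩
  ext ⟨i, j⟩
  have e : (g k i, g k j) ∈ c ↔ (i, j) ∈ p k := by
    refine ⟨?_, fun h => ⟨k, i, j, h, rfl⟩⟩
    rintro ⟨k', i', j', h1, h2⟩
    obtain ⟨a1, a2⟩ := hg _ _ _ _ (Prod.ext_iff.1 h2).1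
    obtain ⟨-, a3⟩ := hg _ _ _ _ (Prod.ext_iff.1 h2).2
    subst a1
    rwa [Fin.ext a2, Fin.ext a3]
  rw [← e, h]
  constructor
  · rintro ⟨u, v, l, h1, h2, h3⟩
    have z : ∀ {γ i} {t : Set S}, (W γ i ∩ t).Nonempty → i < m γ := fun {γ i t} hn => by
      by_contra hc
      rw [hW γ i (not_lt.1 hc)] at hn
      simp at hn
    exact ⟨u, z h1, v, z h3, l, l.2, h1, h2, h3⟩
  · rintro ⟨u, hu, v, hv, l, hl, h1, h2, h3⟩
    exact ⟨⟨u, hu.trans_le (hgm k i).1⟩, ⟨v, hv.trans_le (hgm k j).2⟩, ⟨l, hl⟩, h1, h2, h3⟩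

variable {S : Type u} [TopologicalSpace S] {𝒮 : Set (Set S)} (h1 : ∀ P ∈ 𝒮, IsClosed P)
  (h2 : ∀ F, IsClosed F → ∃ 𝒜 : Set (Set S), (∀ A ∈ 𝒜, ∃ Q ⊆ 𝒮, Q.Finite ∧ A = ⋃₀ Q) ∧ F = ⋂₀ 𝒜)
  (h3 : ∀ L ⊆ 𝒮, (∀ A ∈ L, ∀ B ∈ L, (A ∩ B).Nonempty) → (⋂₀ L).Nonempty)

include h2 h3 in
lemma cpt : CompactSpace S := by
  refine ⟨isCompact_iff_ultrafilter_le_nhds.2 fun F _ => ?_⟩
  obtain ⟨x, hx⟩ := h3 {P ∈ 𝒮 | P ∈ F} (sep_subset _ _) fun A hA B hB =>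
    F.nonempty_of_mem (inter_mem hA.2 hB.2)
  refine ⟨x, mem_univ _, le_nhds_iff.2 fun U hxU hU => ?_⟩
  by_contra c
  obtain ⟨𝒜, a1, a2⟩ := h2 _ hU.isClosed_compl
  have : x ∉ ⋂₀ 𝒜 := by rw [← a2]; exact fun h => h hxU
  obtain ⟨A, hA, hxA⟩ : ∃ A ∈ 𝒜, x ∉ A := by simpa using this
  obtain ⟨Q, q1, q2, rfl⟩ := a1 A hA
  have : ⋃₀ Q ∈ F := mem_of_superset (Ultrafilter.compl_mem_iff_notMem.2 c)
    (by rw [a2]; exact sInter_subset_of_mem hA)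
  obtain ⟨P, p1, p2⟩ := (Ultrafilter.finite_sUnion_mem_iff q2).1 this
  exact hxA ⟨P, p1, hx P ⟨q1 p1, p2⟩⟩

include h1 h2 h3 in
lemma pieces {C : Set S} (hC : IsClopen C) : ∃ (m : ℕ) (W : ℕ → Set S),
    (∀ i, W i = ∅ ∨ ∃ Q ⊆ 𝒮, W i = ⋂₀ Q) ∧ (∀ i, W i ⊆ C) ∧ (∀ x ∈ C, ∃ i < m, x ∈ W i) ∧
      ∀ i, m ≤ i → W i = ∅ := by
  classical
  have := cpt h2 h3
  obtain ⟨𝒜, a1, a2⟩ := h2 _ hC.1
  choose! Q q1 q2 q3 using a1
  obtain ⟨t, t1, t2, t3⟩ := hC.compl.1.isCompact.elim_finite_subcover_image (b := 𝒜) (c := compl)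
    (fun A hA => by
      rw [q3 A hA, sUnion_eq_biUnion]
      exact ((q2 A hA).isClosed_biUnion fun P hP => h1 P (q1 A hA hP)).isOpen_compl)
    (fun x hx => by
      rw [a2] at hx
      simpa using hx)
  have hf : (⋃ A ∈ t, Q A).Finite := t2.biUnion fun A hA => q2 A (t1 hA)
  have hR : (sInter '' {q | q ⊆ ⋃ A ∈ t, Q A} ∩ {w | w ⊆ C}).Finite :=
    (hf.finite_subsets.image _).inter_of_left _
  let l := hR.toFinset.toList
  have hl : ∀ w, w ∈ l ↔ w ∈ sInter '' {q | q ⊆ ⋃ A ∈ t, Q A} ∩ {w | w ⊆ C} := fun w => by simp [l]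
  have hg : ∀ i, l.getD i ∅ = ∅ ∨ l.getD i ∅ ∈ l := fun i => by
    by_cases c : i < l.length
    · exact .inr (by simp [c])
    · exact .inl (by simp [not_lt.1 c])
  refine ⟨l.length, fun i => l.getD i ∅, fun i => (hg i).imp id fun h => ?_, fun i => ?_,
    fun x hx => ?_, fun i hi => by simp [hi]⟩
  · obtain ⟨⟨q, b1, b2⟩, -⟩ := (hl _).1 h
    exact ⟨q, b1.trans (iUnion₂_subset fun A hA => q1 A (t1 hA)), b2.symm⟩
  · rcases hg i with h | h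
    · exact h.trans_subset (empty_subset _)
    · exact ((hl _).1 h).2
  · have : ⋂₀ {P ∈ ⋃ A ∈ t, Q A | x ∈ P} ∈ l := by
      refine (hl _).2 ⟨⟨_, sep_subset _ _, rfl⟩, fun y hy => ?_⟩
      by_contra c
      obtain ⟨A, hA, hyA⟩ := mem_iUnion₂.1 (t3 c)
      have : x ∈ A := by rw [a2] at hx; exact hx A (t1 hA)
      rw [q3 A (t1 hA)] at this
      obtain ⟨P, p1, p2⟩ := this
      apply hyA
      rw [q3 A (t1 hA)]
      exact ⟨P, p1, hy P ⟨mem_biUnion hA p1, p2⟩⟩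
    obtain ⟨i, hi, e⟩ := List.getElem_of_mem this
    refine ⟨i, hi, ?_⟩
    show x ∈ l.getD i ∅
    rw [List.getD_eq_getElem _ _ hi, e]
    exact fun P hP => hP.2

omit [TopologicalSpace S] in
include h3 in
lemma helly {a b c : Set S} (ha : a = ∅ ∨ ∃ Q ⊆ 𝒮, a = ⋂₀ Q) (hb : b = ∅ ∨ ∃ Q ⊆ 𝒮, b = ⋂₀ Q)
    (hc : c = ∅ ∨ ∃ Q ⊆ 𝒮, c = ⋂₀ Q) (ab : (a ∩ b).Nonempty) (ac : (a ∩ c).Nonempty)
    (bc : (b ∩ c).Nonempty) : ∃ x, x ∈ a ∧ x ∈ b ∧ x ∈ c := by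
  obtain ⟨p, p1, p2⟩ := ab
  obtain ⟨q, q1, q2⟩ := ac
  obtain ⟨r, r1, r2⟩ := bc
  obtain ⟨A, a1, rfl⟩ := ha.resolve_left (Set.Nonempty.ne_empty ⟨p, p1⟩)
  obtain ⟨B, b1, rfl⟩ := hb.resolve_left (Set.Nonempty.ne_empty ⟨p, p2⟩)
  obtain ⟨C, c1, rfl⟩ := hc.resolve_left (Set.Nonempty.ne_empty ⟨q, q2⟩)
  obtain ⟨x, hx⟩ := h3 (A ∪ B ∪ C) (union_subset (union_subset a1 b1) c1) (by
    rintro X ((hX | hX) | hX) Y ((hY | hY) | hY)
    exacts [⟨p, p1 _ hX, p1 _ hY⟩, ⟨p, p1 _ hX, p2 _ hY⟩, ⟨q, q1 _ hX, q2 _ hY⟩,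
      ⟨p, p2 _ hX, p1 _ hY⟩, ⟨p, p2 _ hX, p2 _ hY⟩, ⟨r, r1 _ hX, r2 _ hY⟩,
      ⟨q, q2 _ hX, q1 _ hY⟩, ⟨r, r2 _ hX, r1 _ hY⟩, ⟨r, r2 _ hX, r2 _ hY⟩])
  exact ⟨x, fun X h => hx X (.inl (.inl h)), fun X h => hx X (.inl (.inr h)), fun X h => hx X (.inr h)⟩

abbrev G : Type := ℝ ⊕ ℝ ⊕ Set (ℝ × ℝ)

def ty : G → Fin 3 := Sum.elim (fun _ => 0) (Sum.elim (fun _ => 1) fun _ => 2)

def K : Set (G → ℝ) := {f | (∀ γ, f γ ∈ ({0, 1} : Set ℝ)) ∧ (∀ x y, ty x = ty y → x ≠ y → f x * f y = 0) ∧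
  ∀ a b c, (a, b) ∉ c → f (.inl a) * f (.inr (.inl b)) * f (.inr (.inr c)) = 0}

lemma Kc : IsCompact K := by
  refine (isCompact_univ_pi fun _ : G => (toFinite ({0, 1} : Set ℝ)).isCompact).of_isClosed_subset ?_
    fun f hf γ _ => hf.1 γ
  simp only [K, ofPred_and, ofPred_forall]
  refine (isClosed_iInter fun γ => (toFinite ({0, 1} : Set ℝ)).isClosed.preimage
    (continuous_apply γ)).inter (IsClosed.inter ?_ ?_)
  · exact isClosed_iInter fun x => isClosed_iInter fun y => isClosed_iInter fun _ =>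
      isClosed_iInter fun _ => isClosed_eq (by fun_prop) continuous_const
  · exact isClosed_iInter fun x => isClosed_iInter fun y => isClosed_iInter fun _ =>
      isClosed_iInter fun _ => isClosed_eq (by fun_prop) continuous_const

lemma Kf {f : G → ℝ} (hf : f ∈ K) {ε : ℝ} (hε : 0 < ε) : {γ | ε ≤ |f γ|}.Finite := by
  refine Set.Finite.of_finite_image (f := ty) (toFinite _) fun x hx y hy e => ?_
  by_contra c
  have a1 : f x ≠ 0 := abs_pos.1 (hε.trans_le hx)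
  have a2 : f y ≠ 0 := abs_pos.1 (hε.trans_le hy)
  exact mul_ne_zero a1 a2 (hf.2.1 x y e c)

include h1 h2 h3 in
theorem main (π : S → K) (hπ : Continuous π) : ¬ Surjective π := fun hs => by
  classical
  have hC : ∀ γ, IsClopen {s | (π s).1 γ = 1} := fun γ => by
    have hc : Continuous fun s => (π s).1 γ :=
      (continuous_apply γ).comp (continuous_subtype_val.comp hπ)
    refine ⟨isClosed_eq hc continuous_const, ?_⟩
    convert isOpen_lt (continuous_const (y := (0 : ℝ))) hc using 1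
    ext s
    rcases (π s).2.1 γ with h | h
    · simp [h]
    · simp [show (π s).1 γ = 1 from h]
  choose m W w1 w2 w3 w4 using fun γ => pieces h1 h2 h3 (hC γ)
  refine comb m W (fun a b c => ⟨fun h => ?_, ?_⟩) w4
  · let f : G → ℝ := fun γ => if γ = .inl a ∨ γ = .inr (.inl b) ∨ γ = .inr (.inr c) then 1 else 0
    have hf : f ∈ K := by
      refine ⟨fun γ => ?_, fun x y e ne => ?_, fun a' b' c' h' => ?_⟩
      · simp only [f]
        split_ifs <;> simp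
      · simp only [f]
        split_ifs with c1 c2
        · exfalso
          rcases c1 with rfl | rfl | rfl <;> rcases c2 with rfl | rfl | rfl <;> simp [ty] at e ne
        all_goals simp
      · by_contra c1
        simp [f] at c1
        obtain ⟨rfl, rfl, rfl⟩ := c1
        exact h' h
    obtain ⟨s, hs⟩ := hs ⟨f, hf⟩
    obtain ⟨i, i1, i2⟩ := w3 (.inl a) s (by simp [hs, f])
    obtain ⟨j, j1, j2⟩ := w3 (.inr (.inl b)) s (by simp [hs, f])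
    obtain ⟨l, l1, l2⟩ := w3 (.inr (.inr c)) s (by simp [hs, f])
    exact ⟨i, i1, j, j1, l, l1, ⟨s, i2, j2⟩, ⟨s, i2, l2⟩, ⟨s, j2, l2⟩⟩
  · rintro ⟨i, -, j, -, l, -, a1, a2, a3⟩
    obtain ⟨s, s1, s2, s3⟩ := helly h3 (w1 _ _) (w1 _ _) (w1 _ _) a1 a2 a3
    by_contra c1
    have := (π s).2.2.2 a b c c1
    rw [show (π s).1 _ = 1 from w2 _ _ s1, show (π s).1 _ = 1 from w2 _ _ s2,
      show (π s).1 _ = 1 from w2 _ _ s3] at this
    norm_num at this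

end Pool.Agent.H.MP_0256c3
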